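import Pool.Agent.L7h35.PC5.Stm

set_option autoImplicit false

namespace Pool.Agent.L7h35.PC5

theorem s_CNT : S_CNT := by
  classical
  intro V hV U k c hsym hno
  have hdec : hV = fun a b => Classical.propDecidable (a = b) := Subsingleton.elim _ _
  subst hdec
  set N : V → V → Finset V := fun u v => U.filter (fun w => w ≠ u ∧ c u w = c u v) with hN
  set D : Finset (V × V) := U.offDiag.filter (fun p => (N p.1 p.2).card ≤ 2) with hD
  -- every pair or its swap is in D
  have hcov : U.offDiag ⊆ D ∪ D.image Prod.swap := by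
    rintro ⟨u, v⟩ huv
    rw [Finset.mem_offDiag] at huv
    obtain ⟨hu, hv, hne⟩ := huv
    simp only at hu hv hne
    by_cases h1 : (N u v).card ≤ 2
    · refine Finset.mem_union_left _ ?_
      rw [hD, Finset.mem_filter, Finset.mem_offDiag]
      exact ⟨⟨hu, hv, hne⟩, h1⟩
    by_cases h2 : (N v u).card ≤ 2
    · refine Finset.mem_union_right _ ?_
      rw [Finset.mem_image]
      refine ⟨(v, u), ?_, rfl⟩
      rw [hD, Finset.mem_filter, Finset.mem_offDiag]
      exact ⟨⟨hv, hu, hne.symm⟩, h2⟩
    exfalso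
    push Not at h1 h2
    -- p ≠ q in N u v minus v
    have h3 : 1 < ((N u v).erase v).card := by
      have := Finset.pred_card_le_card_erase (s := N u v) (a := v)
      omega
    have h4 : 1 ≤ ((N v u).erase u).card := by
      have := Finset.pred_card_le_card_erase (s := N v u) (a := u)
      omega
    obtain ⟨p, hp, q, hq, hpq⟩ := Finset.one_lt_card.mp h3
    obtain ⟨r, hr⟩ := Finset.card_pos.mp h4
    rw [Finset.mem_erase, hN] at hp hq hr
    simp only [Finset.mem_filter] at hp hq hr
    obtain ⟨hpv, hpU, hpu, hpc⟩ := hp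
    obtain ⟨hqv, hqU, hqu, hqc⟩ := hq
    obtain ⟨hru, hrU, hrv, hrc⟩ := hr
    by_cases hpr : p = r
    · have hqr : q ≠ r := fun h => hpq (hpr.trans h.symm)
      refine hno q u v r hqU hu hv hrU hqu hqv hqr hne (Ne.symm hru) (Ne.symm hrv) ⟨?_, ?_⟩
      · rw [hsym q u]; exact hqc
      · rw [hrc]; exact hsym u v
    · refine hno p u v r hpU hu hv hrU hpu hpv hpr hne (Ne.symm hru) (Ne.symm hrv) ⟨?_, ?_⟩
      · rw [hsym p u]; exact hpc
      · rw [hrc]; exact hsym u v
  -- D is small
  have hDc : D.card ≤ 2 * (U ×ˢ (Finset.univ : Finset (Fin k))).card := by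
    refine Finset.card_le_mul_card_image_of_maps_to (f := fun p : V × V => (p.1, c p.1 p.2)) ?_ 2 ?_
    · rintro ⟨u, v⟩ h
      rw [hD, Finset.mem_filter, Finset.mem_offDiag] at h
      exact Finset.mem_product.mpr ⟨h.1.1, Finset.mem_univ _⟩
    · rintro ⟨u, i⟩ _
      by_cases hE : (D.filter (fun p : V × V => (p.1, c p.1 p.2) = (u, i))) = ∅
      · rw [hE]; simp
      obtain ⟨⟨a, b⟩, hab⟩ := Finset.nonempty_iff_ne_empty.mpr hE
      rw [Finset.mem_filter, hD, Finset.mem_filter] at hab
      obtain ⟨⟨_, hcard⟩, heq⟩ := hab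
      simp only [Prod.mk.injEq] at heq hcard
      obtain ⟨rfl, rfl⟩ := heq
      refine le_trans ?_ hcard
      refine Finset.card_le_card_of_injOn (fun p : V × V => p.2) ?_ ?_
      · rintro ⟨x, y⟩ hxy
        rw [Finset.mem_coe, Finset.mem_filter, hD, Finset.mem_filter, Finset.mem_offDiag] at hxy
        obtain ⟨⟨⟨hx, hy, hxy'⟩, _⟩, he⟩ := hxy
        simp only [Prod.mk.injEq] at he hx hy hxy' ⊢
        obtain ⟨rfl, he⟩ := he
        rw [Finset.mem_coe, hN]
        simp only [Finset.mem_filter]
        exact ⟨hy, Ne.symm hxy', he⟩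
      · rintro ⟨x, y⟩ hxy ⟨x', y'⟩ hxy' h
        rw [Finset.mem_coe, Finset.mem_filter] at hxy hxy'
        have h1 := hxy.2
        have h2 := hxy'.2
        simp only [Prod.mk.injEq] at h1 h2 h
        obtain ⟨e1, _⟩ := h1
        obtain ⟨e2, _⟩ := h2
        simp only [Prod.mk.injEq]
        exact ⟨e1.trans e2.symm, h⟩
  have h5 : U.offDiag.card ≤ D.card + D.card := by
    refine (Finset.card_le_card hcov).trans ((Finset.card_union_le _ _).trans ?_)
    exact Nat.add_le_add_left Finset.card_image_le _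
  rw [Finset.card_product, Finset.card_univ, Fintype.card_fin] at hDc
  rw [Finset.offDiag_card] at h5
  by_contra hcon
  push Not at hcon
  have h6 : (4 * k + 2) * U.card ≤ U.card * U.card := Nat.mul_le_mul_right _ hcon
  have h7 : 0 < U.card := by omega
  have h8 : U.card * U.card ≤ 4 * (U.card * k) + U.card := by omega
  nlinarith

end Pool.Agent.L7h35.PC5
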