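import Pool.Agent.L7h35.PC5.Stm

set_option autoImplicit false

open Filter Topology

namespace Pool.Agent.L7h35.PC5

lemma lim_aux : Tendsto (fun x : ℝ => Real.logb 2 (4 * x + 1) / x) atTop (𝓝 0) := by
  have h1 := Real.tendsto_pow_log_div_mul_add_atTop (1 / 4) (-(1 / 4)) 1 (by norm_num)
  have h2 : Tendsto (fun x : ℝ => 4 * x + 1) atTop atTop :=
    tendsto_atTop_add_const_right _ _ (tendsto_id.const_mul_atTop (by norm_num))
  have h3 := (h1.comp h2).div_const (Real.log 2)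
  rw [zero_div] at h3
  refine h3.congr (fun x => ?_)
  simp only [Function.comp, pow_one]
  rw [Real.logb]
  have h4 : (1 / 4 : ℝ) * (4 * x + 1) + -(1 / 4) = x := by ring
  rw [h4]
  rw [div_right_comm]

theorem fin (hLOW : S_LOW) (hUPB : S_UPB) :
    (∀ n : ℕ, 3 ≤ n →
      (∃ c : Edge n → Fin (chiP (L n)), ∀ i, PerfectSet (L n) {v | c v = i}) ∧
      n ≤ (4 * chiP (L n) + 1) * 2 ^ chiP (L n) ∧
      chiP (L n) ≤ Nat.clog 2 n - 1 ∧
      Real.logb 2 n - Real.logb 2 (4 * Real.logb 2 n + 1) ≤ chiP (L n) ∧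
      (chiP (L n) : ℝ) < Real.logb 2 n) ∧
    Tendsto (fun n : ℕ => (chiP (L n) : ℝ) / Real.logb 2 n) atTop (𝓝 1) := by
  have hmain : ∀ n : ℕ, 3 ≤ n →
      (∃ c : Edge n → Fin (chiP (L n)), ∀ i, PerfectSet (L n) {v | c v = i}) ∧
      n ≤ (4 * chiP (L n) + 1) * 2 ^ chiP (L n) ∧
      chiP (L n) ≤ Nat.clog 2 n - 1 ∧
      Real.logb 2 n - Real.logb 2 (4 * Real.logb 2 n + 1) ≤ chiP (L n) ∧
      (chiP (L n) : ℝ) < Real.logb 2 n := by
    intro n hn
    have hex : ∃ c : Edge n → Fin (chiP (L n)), ∀ i, PerfectSet (L n) {v | c v = i} :=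
      Nat.sInf_mem (s := {k | ∃ c : Edge n → Fin k, ∀ i, PerfectSet (L n) {v | c v = i}})
        ⟨_, hUPB n hn⟩
    have hle : chiP (L n) ≤ Nat.clog 2 n - 1 := Nat.sInf_le (hUPB n hn)
    have hlow : n ≤ (4 * chiP (L n) + 1) * 2 ^ chiP (L n) := by
      obtain ⟨c, hc⟩ := hex
      exact hLOW n _ c hc
    refine ⟨hex, hlow, hle, ?_⟩
    clear hex
    set k := chiP (L n) with hk
    have hn0 : (0 : ℝ) < n := by exact_mod_cast (by omega : 0 < n)
    have hlt : (k : ℝ) < Real.logb 2 n := by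
      have h1 : 2 ^ (Nat.clog 2 n).pred < n := Nat.pow_pred_clog_lt_self (by norm_num) (by omega)
      have h2 : 2 ^ k < n := lt_of_le_of_lt (Nat.pow_le_pow_right (by norm_num) hle) h1
      rw [Real.lt_logb_iff_rpow_lt (by norm_num) hn0, Real.rpow_natCast]
      exact_mod_cast h2
    refine ⟨?_, hlt⟩
    have h3 : (n : ℝ) ≤ (4 * k + 1) * 2 ^ k := by exact_mod_cast hlow
    have hk0 : (0 : ℝ) ≤ k := Nat.cast_nonneg _
    have h4 : Real.logb 2 n ≤ Real.logb 2 ((4 * k + 1) * 2 ^ k) :=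
      Real.logb_le_logb_of_le (by norm_num) hn0 h3
    rw [Real.logb_mul (by positivity) (by positivity), Real.logb_pow,
      Real.logb_self_eq_one (by norm_num), mul_one] at h4
    have h5 : Real.logb 2 (4 * k + 1) ≤ Real.logb 2 (4 * Real.logb 2 n + 1) :=
      Real.logb_le_logb_of_le (by norm_num) (by positivity) (by linarith)
    linarith
  refine ⟨hmain, ?_⟩
  have hlog : Tendsto (fun n : ℕ => Real.logb 2 (n : ℝ)) atTop atTop :=
    (Real.tendsto_logb_atTop (by norm_num)).comp tendsto_natCast_atTop_atTop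
  have h1 : Tendsto (fun n : ℕ => 1 - Real.logb 2 (4 * Real.logb 2 (n : ℝ) + 1) / Real.logb 2 (n : ℝ))
      atTop (𝓝 1) := by
    have := (tendsto_const_nhds (x := (1 : ℝ))).sub (lim_aux.comp hlog)
    rw [sub_zero] at this
    exact this
  refine tendsto_of_tendsto_of_tendsto_of_le_of_le' h1 tendsto_const_nhds ?_ ?_
  · filter_upwards [eventually_ge_atTop 3] with n hn
    obtain ⟨-, -, -, h2, h3⟩ := hmain n hn
    have hpos : 0 < Real.logb 2 (n : ℝ) := lt_of_le_of_lt (Nat.cast_nonneg _) h3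
    rw [le_div_iff₀ hpos, sub_mul, div_mul_cancel₀ _ hpos.ne']
    linarith
  · filter_upwards [eventually_ge_atTop 3] with n hn
    obtain ⟨-, -, -, h2, h3⟩ := hmain n hn
    have hpos : 0 < Real.logb 2 (n : ℝ) := lt_of_le_of_lt (Nat.cast_nonneg _) h3
    rw [div_le_one hpos]
    exact h3.le

end Pool.Agent.L7h35.PC5
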