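import Pool.Agent.L7h35.PC5.Stm

set_option autoImplicit false

namespace Pool.Agent.L7h35.PC5

theorem s_LOW (hODD : S_ODD) (hLAY : S_LAY) (hCNT : S_CNT) : S_LOW := by
  classical
  intro n k c hc
  have h1 : ∀ i : Fin k, ∃ col : Fin n → Bool, ∀ a b c' d : Fin n, a ≠ c' → a ≠ d → b ≠ d →
      (gr {e | c e = i}).Adj a b → (gr {e | c e = i}).Adj b c' → (gr {e | c e = i}).Adj c' d →
      ¬ (col a = col b ∧ col b = col c' ∧ col c' = col d) := fun i =>
    hLAY (Fin n) inferInstance _ (hODD n _ (hc i))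
  choose col hcol using h1
  rcases Nat.eq_zero_or_pos n with hn | hn
  · subst hn; exact Nat.zero_le _
  by_contra hcon
  push Not at hcon
  -- pigeonhole
  have h2 : Fintype.card (Fin k → Bool) * (4 * k + 1) < Fintype.card (Fin n) := by
    simp only [Fintype.card_fun, Fintype.card_bool, Fintype.card_fin]
    rw [mul_comm]
    exact hcon
  obtain ⟨f, hf⟩ := Fintype.exists_lt_card_fiber_of_mul_lt_card (fun v : Fin n => fun i => col i v) h2
  set U : Finset (Fin n) := Finset.univ.filter (fun v => (fun i => col i v) = f) with hU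
  have hk : 2 ≤ U.card := by omega
  have hk0 : 0 < k := by
    obtain ⟨a, _, b, _, hab⟩ := Finset.one_lt_card.mp (show 1 < U.card by omega)
    exact Fin.pos (c ⟨{a, b}, Finset.card_pair hab⟩)
  -- the colouring of pairs
  set cc : Fin n → Fin n → Fin k := fun u v => if h : u ≠ v then c ⟨{u, v}, Finset.card_pair h⟩
    else ⟨0, hk0⟩ with hcc
  have hsym : ∀ u v, cc u v = cc v u := by
    intro u v
    by_cases h : u = v
    · rw [h]
    · simp only [hcc]
      rw [dif_pos h, dif_pos (Ne.symm h)]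
      congr 1
      exact Subtype.ext (Finset.pair_comm u v)
  have hadj : ∀ u v, u ≠ v → (gr {e | c e = cc u v}).Adj u v := by
    intro u v h
    refine ⟨⟨{u, v}, Finset.card_pair h⟩, ?_, h, rfl⟩
    simp only [hcc, Set.mem_setOf_eq]
    rw [dif_pos h]
  have h3 := hCNT (Fin n) (fun a b => Classical.propDecidable (a = b)) U k cc hsym ?_
  · omega
  intro p q r s hp hq hr hs hpq hpr hps hqr hqs hrs hh
  have e1 : (gr {e | c e = cc p q}).Adj p q := hadj p q hpq
  have e2 : (gr {e | c e = cc p q}).Adj q r := by rw [hh.1]; exact hadj q r hqr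
  have e3 : (gr {e | c e = cc p q}).Adj r s := by rw [hh.1, hh.2]; exact hadj r s hrs
  have hm : ∀ v ∈ U, ∀ i, col i v = f i := by
    intro v hv i
    rw [hU, Finset.mem_filter] at hv
    exact congrFun hv.2 i
  refine hcol (cc p q) p q r s hpr hps hqs e1 e2 e3 ⟨?_, ?_, ?_⟩
  · rw [hm p hp, hm q hq]
  · rw [hm q hq, hm r hr]
  · rw [hm r hr, hm s hs]

end Pool.Agent.L7h35.PC5
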